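import Pool.Agent.K.MP_6e34ef_nt.C2

set_option autoImplicit false

namespace Pool.Agent.Results.MP_dc323a_nt.ExceptionalSet

open Pool.Agent.P.MP_dc323a_nt

theorem dvd_pow_of_primes (r n : GaussianInt) :
    n ≠ 0 → (∀ p : GaussianInt, Prime p → p ∣ n → p ∣ r) → ∃ k : ℕ, n ∣ r ^ k := by
  induction n using UniqueFactorizationMonoid.induction_on_prime with
  | h₁ => intro h; exact absurd rfl h
  | h₂ x hx => intro _ _; exact ⟨0, hx.dvd⟩
  | h₃ a p ha hp ih =>
    intro _ h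
    obtain ⟨k, hk⟩ := ih ha (fun q hq hqa => h q hq (hqa.mul_left p))
    exact ⟨k + 1, by rw [pow_succ']; exact mul_dvd_mul (h p hp (dvd_mul_right _ _)) hk⟩

theorem result : ∃ C : ℝ, 0 < C ∧ ∀ X : ℝ, 1 ≤ X →
    ∀ U : Finset (GaussianInt × GaussianInt × GaussianInt),
      (∀ a b c : GaussianInt, (a, b, c) ∈ U →
        a + b = c ∧ a * b * c ≠ 0 ∧ IsCoprime a b ∧ IsCoprime b c ∧ IsCoprime a c ∧
        max ‖GaussianInt.toComplex a‖
          (max ‖GaussianInt.toComplex b‖ ‖GaussianInt.toComplex c‖) ≤ X ∧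
        ∃ S : Finset GaussianInt,
          (∀ Q ∈ S, Prime Q ∧ Q ∣ a * b * c) ∧
          (∀ Q : GaussianInt, Prime Q → Q ∣ a * b * c → ∃ R ∈ S, Associated Q R) ∧
          (∀ Q ∈ S, ∀ R ∈ S, Associated Q R → Q = R) ∧
          ∏ Q ∈ S, ‖GaussianInt.toComplex Q‖ ≤
            max ‖GaussianInt.toComplex a‖
              (max ‖GaussianInt.toComplex b‖ ‖GaussianInt.toComplex c‖)) →
      (U.card : ℝ) ≤ C * X ^ (11 / 10 : ℝ) := by
  classical
  obtain ⟨C, hC, h⟩ := setupG.count_fun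
  refine ⟨C, hC, fun X hX U hU => ?_⟩
  let f : GaussianInt × GaussianInt × GaussianInt → Fin 3 → GaussianInt :=
    fun t => ![t.1, t.2.1, -t.2.2]
  have hinj : Function.Injective f := by
    rintro ⟨a, b, c⟩ ⟨a', b', c'⟩ h
    have h0 := congrFun h 0
    have h1 := congrFun h 1
    have h2 := congrFun h 2
    simp only [f, Matrix.cons_val_zero, Matrix.cons_val_one, Matrix.cons_val, neg_inj] at h0 h1 h2
    rw [h0, h1, h2]
  have h1 := h X hX (U.image f) (by
    intro v hv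
    obtain ⟨⟨a, b, c⟩, ht, rfl⟩ := Finset.mem_image.1 hv
    obtain ⟨hs, h0, hab, hbc, hac, hm, S, hS1, hS2, -, hr⟩ := hU a b c ht
    have ha : a ≠ 0 := left_ne_zero_of_mul (left_ne_zero_of_mul h0)
    have hb : b ≠ 0 := right_ne_zero_of_mul (left_ne_zero_of_mul h0)
    have hc : c ≠ 0 := right_ne_zero_of_mul h0
    obtain ⟨k, hk⟩ := dvd_pow_of_primes (∏ Q ∈ S, Q) _ h0 (fun p hp hd => by
      obtain ⟨q, hq, hpq⟩ := hS2 p hp hd
      exact hpq.dvd.trans (Finset.dvd_prod_of_mem (fun Q => Q) hq))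
    have hr' : setupG.N (∏ Q ∈ S, Q) ≤ max (setupG.N a) (max (setupG.N b) (setupG.N c)) := by
      rw [setupG.N_prod]; exact hr
    have hm' : max (setupG.N a) (max (setupG.N b) (setupG.N c)) ≤ X := hm
    have hs' : ∃ s, max (setupG.N a) (max (setupG.N b) (setupG.N c)) = setupG.N (f (a, b, c) s) := by
      rcases max_cases (setupG.N a) (max (setupG.N b) (setupG.N c)) with g | g
      · exact ⟨0, g.1⟩
      · rcases max_cases (setupG.N b) (setupG.N c) with g' | g'
        · exact ⟨1, g.1.trans g'.1⟩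
        · exact ⟨2, g.1.trans (g'.1.trans (setupG.N_neg c).symm)⟩
    obtain ⟨s, hs'⟩ := hs'
    refine ⟨?_, ?_, hab, hac.neg_right, hbc.neg_right, ?_, ∏ Q ∈ S, Q, k, s,
      Finset.prod_ne_zero_iff.2 (fun Q hQ => (hS1 Q hQ).1.ne_zero), ?_, hr'.trans hs'.le⟩
    · intro s
      fin_cases s <;> simp [f, ha, hb, hc]
    · simp [f, hs]
    · intro s
      fin_cases s
      · exact (le_max_left _ _).trans hm'
      · exact ((le_max_left _ _).trans (le_max_right _ _)).trans hm'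
      · show setupG.N (-c) ≤ X
        rw [setupG.N_neg]
        exact ((le_max_right _ _).trans (le_max_right _ _)).trans hm'
    · show a * b * -c ∣ _
      rwa [mul_neg, neg_dvd])
  rw [Finset.card_image_of_injective _ hinj] at h1
  have hd : ((setupG.d : ℕ) : ℝ) * (11 / 20 : ℝ) = 11 / 10 := by
    show ((2 : ℕ) : ℝ) * (11 / 20 : ℝ) = 11 / 10
    norm_num
  rwa [hd] at h1

end Pool.Agent.Results.MP_dc323a_nt.ExceptionalSet
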