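import Pool.Agent.K.MP_6e34ef_nt.C5

set_option autoImplicit false

namespace Pool.Agent.Results.MP_dc323a_nt.ExtremalTriples

theorem exists_primes (n : ℕ) (hn : n ≠ 0) : ∃ S : Finset GaussianInt,
    (∀ Q ∈ S, Prime Q ∧ Q ∣ (n : GaussianInt)) ∧
    (∀ Q : GaussianInt, Prime Q → Q ∣ (n : GaussianInt) → ∃ R ∈ S, Associated Q R) ∧
    (∀ Q ∈ S, ∀ R ∈ S, Associated Q R → Q = R) ∧
    ∏ Q ∈ S, ‖GaussianInt.toComplex Q‖ ≤ ((∏ p ∈ n.primeFactors, p : ℕ) : ℝ) := by
  classical
  have hn' : (n : GaussianInt) ≠ 0 := by exact_mod_cast hn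
  let S : Finset GaussianInt :=
    (UniqueFactorizationMonoid.factors (n : GaussianInt)).toFinset.image
      fun q => Quotient.out (Associates.mk q)
  have hout : ∀ q : GaussianInt, Associated q (Quotient.out (Associates.mk q)) := fun q =>
    Associates.mk_eq_mk_iff_associated.1 (Quotient.out_eq (Associates.mk q)).symm
  have h1 : ∀ Q ∈ S, Prime Q ∧ Q ∣ (n : GaussianInt) := fun Q hQ => by
    obtain ⟨q, hq, rfl⟩ := Finset.mem_image.1 hQ
    have hq' := Multiset.mem_toFinset.1 hq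
    exact ⟨(hout q).prime (UniqueFactorizationMonoid.prime_of_factor q hq'),
      (hout q).symm.dvd.trans (UniqueFactorizationMonoid.dvd_of_mem_factors hq')⟩
  have h3 : ∀ Q ∈ S, ∀ R ∈ S, Associated Q R → Q = R := fun Q hQ R hR h => by
    obtain ⟨q, _, rfl⟩ := Finset.mem_image.1 hQ
    obtain ⟨r, _, rfl⟩ := Finset.mem_image.1 hR
    rw [Associates.mk_eq_mk_iff_associated.2 ((hout q).trans (h.trans (hout r).symm))]
  refine ⟨S, h1, fun Q hQ hd => ?_, h3, ?_⟩
  · obtain ⟨q, hq, hQq⟩ :=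
      UniqueFactorizationMonoid.exists_mem_factors_of_dvd hn' hQ.irreducible hd
    exact ⟨_, Finset.mem_image.2 ⟨q, Multiset.mem_toFinset.2 hq, rfl⟩, hQq.trans (hout q)⟩
  · have h4 : ∏ Q ∈ S, Q ∣ ((∏ p ∈ n.primeFactors, p : ℕ) : GaussianInt) := by
      refine Finset.prod_dvd_of_coprime (fun Q hQ R hR hQR => ?_) fun Q hQ => ?_
      · exact (h1 Q hQ).1.coprime_iff_not_dvd.2 fun h =>
          hQR (h3 Q hQ R hR ((h1 Q hQ).1.associated_of_dvd (h1 R hR).1 h))
      · refine (h1 Q hQ).1.dvd_of_dvd_pow (n := n) ((h1 Q hQ).2.trans ?_)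
        exact_mod_cast Nat.cast_dvd_cast (α := GaussianInt) (Nat.dvd_prod_primeFactors_pow_self hn)
    obtain ⟨t, ht⟩ := h4
    have hr : ∏ p ∈ n.primeFactors, p ≠ 0 :=
      Finset.prod_ne_zero_iff.2 fun p hp => (Nat.prime_of_mem_primeFactors hp).ne_zero
    have ht0 : t ≠ 0 := by
      rintro rfl
      rw [mul_zero] at ht
      exact hr (by exact_mod_cast ht)
    have ht1 : 1 ≤ ‖GaussianInt.toComplex t‖ := by
      have a1 : (1 : ℝ) ≤ (t.norm : ℝ) := by exact_mod_cast GaussianInt.norm_pos.2 ht0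
      rw [GaussianInt.intCast_real_norm, Complex.normSq_eq_norm_sq] at a1
      exact (one_le_sq_iff₀ (norm_nonneg _)).1 a1
    have h5 := congrArg (fun z => ‖GaussianInt.toComplex z‖) ht
    simp only [map_natCast, Complex.norm_natCast, map_mul, map_prod, norm_mul, norm_prod] at h5
    rw [h5]
    exact le_mul_of_one_le_right (Finset.prod_nonneg fun _ _ => norm_nonneg _) ht1

theorem result : Set.Infinite {t : GaussianInt × GaussianInt × GaussianInt |
    ∃ (a b c : GaussianInt) (M : ℝ), t = (a, b, c) ∧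
      a + b = c ∧ a * b * c ≠ 0 ∧ IsCoprime a b ∧ IsCoprime b c ∧ IsCoprime a c ∧
      M = max ‖GaussianInt.toComplex a‖
        (max ‖GaussianInt.toComplex b‖ ‖GaussianInt.toComplex c‖) ∧
      ∃ S : Finset GaussianInt,
        (∀ Q ∈ S, Prime Q ∧ Q ∣ a * b * c) ∧
        (∀ Q : GaussianInt, Prime Q → Q ∣ a * b * c → ∃ R ∈ S, Associated Q R) ∧
        (∀ Q ∈ S, ∀ R ∈ S, Associated Q R → Q = R) ∧
        (∏ Q ∈ S, ‖GaussianInt.toComplex Q‖) *
          Real.exp (6.84 * √(Real.log M) / Real.log (Real.log M)) < M} := by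
  refine Set.Infinite.of_image (fun t => t.2.2.re.toNat)
    (Set.infinite_of_forall_exists_gt fun B => ?_)
  obtain ⟨a, b, c, hB, ha, hb, rfl, hab, h⟩ := Pool.Agent.P.MP_dc323a_nt.Ext.extremal (B + 1)
  have h0 : a * b * (a + b) ≠ 0 := by positivity
  obtain ⟨S, h1, h2, h3, h4⟩ := exists_primes _ h0
  have h5 : IsCoprime (a : GaussianInt) (b : GaussianInt) := by
    simpa using (Nat.isCoprime_iff_coprime.2 hab).map (Int.castRingHom GaussianInt)
  refine ⟨a + b, ⟨((a : GaussianInt), (b : GaussianInt), ((a + b : ℕ) : GaussianInt)),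
    ⟨a, b, (a + b : ℕ), (a + b : ℕ), rfl, by push_cast; rfl, by exact_mod_cast h0, h5, ?_, ?_, ?_,
      S, by exact_mod_cast h1, by exact_mod_cast h2, h3, ?_⟩, ?_⟩, hB⟩
  · simpa [add_comm] using h5.symm.add_mul_left_right 1
  · simpa [add_comm] using h5.add_mul_left_right 1
  · simp only [map_natCast, Complex.norm_natCast]
    rw [max_eq_right (a := (b : ℝ)) (by exact_mod_cast Nat.le_add_left b a),
      max_eq_right (by exact_mod_cast Nat.le_add_right a b)]
  · exact (mul_le_mul_of_nonneg_right h4 (Real.exp_pos _).le).trans_lt h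
  · simp only [Zsqrtd.re_natCast, Int.toNat_natCast]

end Pool.Agent.Results.MP_dc323a_nt.ExtremalTriples
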