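import Pool.Agent.P.MP_6e34ef_nt.SE.Main

set_option autoImplicit false

namespace Pool.Agent.Results.MP_dc323a_nt.Subexponential

theorem result : ∀ ε : ℝ, 0 < ε → ∃ C : ℝ, 0 < C ∧
    ∀ a b c : GaussianInt, a + b = c → a * b * c ≠ 0 →
      IsCoprime a b → IsCoprime b c → IsCoprime a c →
      ∀ S : Finset GaussianInt,
        (∀ Q ∈ S, Prime Q ∧ Q ∣ a * b * c) →
        (∀ Q : GaussianInt, Prime Q → Q ∣ a * b * c → ∃ R ∈ S, Associated Q R) →
        (∀ Q ∈ S, ∀ R ∈ S, Associated Q R → Q = R) →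
        Real.log (max ‖GaussianInt.toComplex a‖
            (max ‖GaussianInt.toComplex b‖ ‖GaussianInt.toComplex c‖)) ≤
          C * (∏ Q ∈ S, ‖GaussianInt.toComplex Q‖) ^ ε :=
  Pool.Agent.P.MP_6e34ef_nt.SE.mainG

end Pool.Agent.Results.MP_dc323a_nt.Subexponential
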